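import Pool.Agent.K3h15.UB.C

set_option autoImplicit false

namespace Pool.Agent.Results.MP_e299c6_nt.AllLevelSetsClosed

open Pool.Agent.R341.Uni

/-- `U x` is the set of all bases `q ∈ (1, 2]` in which `x` has exactly one expansion
`x = ∑_{i ≥ 1} d_i q^{-i}` with digits `d_i ∈ {0, 1}` (here the digits are indexed from `0`). -/
def U (x : ℝ) : Set ℝ :=
  {q | 1 < q ∧ q ≤ 2 ∧ ∃! d : ℕ → Bool, ∑' i, (if d i then (1 : ℝ) else 0) / q ^ (i + 1) = x}

/-- The smallest univoque base `q_s(x) = inf U(x)`. -/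
noncomputable def qs (x : ℝ) : ℝ := sInf (U x)

/-- For all `x > 0` the set `U(x)` is nonempty, and for every `q ∈ (1, 2]` the level set
`L(q) = {x > 0 : q_s(x) = q}` is closed in `(0, ∞)`. -/
theorem result : (∀ x : ℝ, 0 < x → (U x).Nonempty) ∧
    ∀ q : ℝ, 1 < q → q ≤ 2 → IsClosed {x : Set.Ioi (0 : ℝ) | qs (x : ℝ) = q} := by
  have hU : ∀ x, U x = Ux x := fun x => rfl
  refine ⟨fun x hx => ?_, fun q hq1 hq2 => ?_⟩
  · obtain ⟨q, hq, _⟩ := F1 hx
    exact ⟨q, hq⟩
  · rcases lt_or_eq_of_le hq2 with h2 | rfl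
    · rw [← closure_subset_iff_isClosed]
      intro x hx
      rw [closure_subtype] at hx
      have hsub : Subtype.val '' {x : Set.Ioi (0 : ℝ) | qs (x : ℝ) = q} ⊆ LvInf q := by
        rintro _ ⟨y, hy, rfl⟩
        exact ⟨y.2, hy⟩
      exact (Pool.Agent.K3h15.UB.closed_all hq1 h2 x.2 (closure_mono hsub hx)).2
    · convert isClosed_empty
      ext x
      simp only [Set.mem_ofPred_eq, Set.mem_empty_iff_false, iff_false]
      intro h
      obtain ⟨q, hq, hq2⟩ := F1 x.2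
      have h3 : qs (x : ℝ) ≤ q := csInf_le (bdd_Ux _) hq
      have h4 : (BB : ℝ) < 2 := by unfold BB; norm_num
      linarith

end Pool.Agent.Results.MP_e299c6_nt.AllLevelSetsClosed
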